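import Mathlib
import Pool.Agent.Q235.SR.FinalM

/-!
# Positivity up to small weighted two-dimensional content, in a prescribed class

`X` is a closed manifold with an embedding `F` in a Euclidean space, which defines lengths of
tangent vectors and distances of points of `X`, and with a locally Hölder continuous (for example
smooth) almost complex structure `J`.  There is a number `ε > 0`, which depends only on `X`, `F` and
`J`, with the following property.  Let `σ₀` be a closed two-form on `X`, `K` a closed set whose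
`(d-1)`-dimensional Hausdorff measure is zero, and `β` a one-form on the complement of `K`, such
that near each point of `K` either `β` and `σ = σ₀ + dβ` are bounded, or `K` has zero length and
`β` is bounded (or `o(dist⁻¹)`, if the point is isolated).  Assume that `σ(v, J v) ≥ |v|²` except in
balls of radii `r i`, where `σ(v, J v) ≥ -C i |v|²`, and that the sum of the numbers
`(1 + C i) (r i)²` is at most `ε`.  Then the class of `σ₀` contains a symplectic form which tames
`J`, and the segment from any form taming `J` to it consists of nondegenerate forms.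
-/

set_option autoImplicit false

open Set MeasureTheory
open scoped Manifold ContDiff

noncomputable section

namespace Pool.Agent.Results.MP_bf98aa_gt.SmallContentInClass

open Pool.Agent.Y501.SYP Pool.Agent.Q235.SQP Pool.Agent.Q235.SRP

/-- `K` is closed and its `(d-1)`-dimensional Hausdorff measure is zero (in every chart). -/
def ClosedNull (d : ℕ) {X : Type} [TopologicalSpace X] [ChartedSpace (ES d) X] (K : Set X) :
    Prop :=
  IsClosed K ∧ ∀ x : X, μH[(d : ℝ) - 1] (chartAt (ES d) x '' (K ∩ (chartAt (ES d) x).source)) = 0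

theorem result (d m : ℕ) (hd : 1 ≤ d) (X : Type) [TopologicalSpace X] [ChartedSpace (ES d) X]
    [IsManifold 𝓘(ℝ, ES d) ∞ X] [CompactSpace X] [T2Space X] (F : X → ES m)
    (hF : IsEmb (V := ES d) F) (J : End (ES d) X) (hJ : IsAlmostComplex J) (hol : LocHolder J) :
    ∃ ε : ℝ, 0 < ε ∧ ∀ (K : Set X), ClosedNull d K →
      ∀ (σ₀ : Form (ES d) X 2) (β : Form (ES d) X 1) (σ : Form (ES d) X 2), IsSmooth σ₀ →
      IsClosedForm σ₀ → InClassSing σ₀ β σ K →
      ∀ (ι : Type) (x : ι → X) (r C : ι → ℝ), SmallBalls ε r C →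
      (∀ y, AtLeast F J σ K 1 y ∨ ∃ i, ‖F y - F (x i)‖ < r i ∧ AtLeast F J σ K (-C i) y) →
      ∃ (α : Form (ES d) X 1) (ρ : Form (ES d) X 2), IsSmooth α ∧ IsSmooth ρ ∧ IsD α ρ ∧
        IsTamingSymplectic (addF σ₀ ρ) J ∧ ∀ τ : Form (ES d) X 2, (∀ x, TamesAt τ J x) →
          ∀ t : ℝ, 0 ≤ t → t ≤ 1 → NondegForm (segment τ (addF σ₀ ρ) t) := by
  obtain ⟨ε, hε, h⟩ := smallCF hd F hF J hJ hol
  exact ⟨ε, hε, fun K hK σ₀ β σ h₀ h₀c hσ ι x r C hr hpos =>
    h K hK.1 hK.2 σ₀ β σ h₀ h₀c hσ ι x r C hr hpos⟩

end Pool.Agent.Results.MP_bf98aa_gt.SmallContentInClass
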