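import Mathlib
import Pool.Agent.Q235.TF.HomN

/-!
# Symplectic forms homotopic to a nondegenerate form and degenerately tamed structures

Let `X` be a closed manifold, `a` the class of a closed two-form `θ`, `τ` a nondegenerate two-form
and `J` an almost complex structure tamed by `τ`. Then `τ` is homotopic through nondegenerate forms
to a symplectic form in the class `a` if and only if `J` is homotopic through continuous almost
complex structures to one which is weakly or singularly tamed in the class `a`. The same is true
for families over a compact Hausdorff space.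
-/

set_option autoImplicit false

open Set Filter Topology MeasureTheory
open scoped Manifold ContDiff

noncomputable section

namespace Pool.Agent.Results.MP_bf98aa_gt.TamedHomotopy

open Pool.Agent.Y501.SYP
open Pool.Agent.Q235.SZ (SForm SympClass Nondeg)
open Pool.Agent.Q235.TF (AStr Structures NondegForms inclS inclT TamesN)

section

variable {d : ℕ} {X : Type} [TopologicalSpace X] [ChartedSpace (ES d) X]
  [IsManifold 𝓘(ℝ, ES d) ∞ X]

/-- one form `τ` and one structure `J` tamed by it -/
def OneForm (θ : SForm (ES d) X) : Prop :=
  ∀ (τ : SForm (ES d) X) (J : AStr (ES d) X), Nondeg τ.1 → (∀ x, TamesAt τ.1 J.1 x) →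
    ((∃ σ ∈ SympClass θ, JoinedIn (NondegForms d X) τ σ) ↔ ∃ K ∈ Structures θ.1, Joined J K)

/-- families `f` of nondegenerate forms and `J` of structures tamed by `f`, over `B` -/
def Families (θ : SForm (ES d) X) (B : Type) [TopologicalSpace B] : Prop :=
  ∀ (f : C(B, NondegForms d X)) (J : C(B, AStr (ES d) X)), TamesN f J →
    ((∃ g : C(B, SympClass θ), f.Homotopic ((inclS θ).comp g)) ↔
      ∃ K : C(B, Structures θ.1), J.Homotopic ((inclT θ).comp K))

end

theorem result (d : ℕ) (hd : 1 ≤ d) (X : Type) [TopologicalSpace X] [ChartedSpace (ES d) X]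
    [IsManifold 𝓘(ℝ, ES d) ∞ X] [CompactSpace X] [T2Space X] (θ : SForm (ES d) X)
    (hc : IsClosedForm θ.1) : OneForm θ ∧
      ∀ (B : Type) [TopologicalSpace B] [CompactSpace B] [T2Space B], Families θ B :=
  ⟨fun _ _ hτ h => Pool.Agent.Q235.TF.tamedPoint hd hc hτ h,
    fun _ _ _ _ _ _ h => Pool.Agent.Q235.TF.tamedHomotopy hd hc h⟩

end Pool.Agent.Results.MP_bf98aa_gt.TamedHomotopy
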