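import Mathlib
import Pool.Agent.Q235.SP.FamN

/-!
# Symplectic forms in a given class, homotopic to a given nondegenerate form

Let `X` be a closed manifold of dimension `2 n` and `τ` a nondegenerate two-form on `X`. Let
`Thin n τ` be the set of the smooth two-forms `σ`, closed or not, with `σ ^ n ≥ 0` (for the
orientation given by `τ`), the zeros of `σ ^ n` being thin. If `τ` can be joined in this set to a
closed form `σ`, then the class of `σ` contains symplectic forms which are homotopic to `τ` through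
nondegenerate two-forms.
-/

set_option autoImplicit false

open Set Filter Topology MeasureTheory
open scoped Manifold ContDiff

noncomputable section

namespace Pool.Agent.Results.MP_bf98aa_gt.ThinHomotopy

open Pool.Agent.Y501.SYP
open Pool.Agent.Q235.SZ (SForm SmallFor Nondeg addS)

section

variable {V : Type} [NormedAddCommGroup V] [NormedSpace ℝ V]
  {X : Type} [TopologicalSpace X] [ChartedSpace V X]

/-- The value of `σ ^ n` on `2 n` tangent vectors `v (i, b)` (`i < n`, `b` one of the two truth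
values), up to a positive factor which depends on `n` and on the convention for the product: the
sum over the permutations `π` of the `2 n` indices of the sign of `π` times the product over `i` of
`σ (v (π (i, false)), v (π (i, true)))`. -/
def power (n : ℕ) (σ : Form V X 2) (x : X) (v : Fin n × Bool → TangentSpace 𝓘(ℝ, V) x) : ℝ :=
  ∑ π : Equiv.Perm (Fin n × Bool), ((Equiv.Perm.sign π : ℤ) : ℝ) *
    ∏ i, σ x ![v (π (i, false)), v (π (i, true))]

/-- the zeros of `σ ^ n` -/
def Zeros (n : ℕ) (σ : Form V X 2) : Set X := {x | ∀ v, power n σ x v = 0}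

/-- `σ ^ n ≥ 0` for the orientation given by `τ ^ n` -/
def Nonneg (n : ℕ) (τ σ : Form V X 2) : Prop :=
  ∀ (x : X) (v : Fin n × Bool → TangentSpace 𝓘(ℝ, V) x), 0 ≤ power n σ x v * power n τ x v

/-- The zeros of `σ ^ n` are thin: `σ ^ (n - 1)` is not zero at these points (so `σ` has rank
`2 n - 2`, its kernel is a plane), and each component `C` of the set of zeros is small at each
of its points `z`: it has zero area (two-dimensional Hausdorff measure) near `z`, or the kernel of
`σ` at `z` is not contained in the tangent space of `C` at `z`. -/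
def ThinlyDegenerate [MeasurableSpace V] [BorelSpace V] (n : ℕ) (σ : Form V X 2) : Prop :=
  ∀ z ∈ Zeros n σ, z ∉ Zeros (n - 1) σ ∧ SmallFor σ (connectedComponentIn (Zeros n σ) z) z

/-- The smooth two-forms `σ`, closed or not, with `σ ^ n ≥ 0` for the orientation given by `τ`, for
which the zeros of `σ ^ n` are thin. -/
def Thin [MeasurableSpace V] [BorelSpace V] (n : ℕ) (τ : SForm V X) : Set (SForm V X) :=
  {σ | Nonneg n τ.1 σ.1 ∧ ThinlyDegenerate n σ.1}

/-- the nondegenerate smooth two-forms (they induce the orientation of `τ` if joined to `τ`) -/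
def NondegForms : Set (SForm V X) := {σ | Nondeg σ.1}

/-- symplectic forms: smooth, closed and nondegenerate two-forms -/
structure IsSymplectic (w : Form V X 2) : Prop where
  smooth : IsSmooth w
  closed : IsClosedForm w
  nondeg : Nondeg w

/-- exact forms -/
def Exact (η : Form V X 2) : Prop := ∃ α : Form V X 1, IsSmooth α ∧ IsD α η

end

section

open Pool.Agent.Q235.SN Pool.Agent.Q235.SP

variable {d n : ℕ} {X : Type} [TopologicalSpace X] [ChartedSpace (ES d) X]

theorem power_eq (σ : Form (ES d) X 2) (x : X)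
    (v : Fin n × Bool → TangentSpace 𝓘(ℝ, ES d) x) :
    power n σ x v = top (n := n) (V := ES d) (σ x) v :=
  (wedN_apply (V := ES d) (fun _ => σ x) v).symm

theorem power_frame (e : Module.Basis (Fin n × Bool) ℝ (ES d)) (σ : Form (ES d) X 2) (x : X)
    (v : Fin n × Bool → TangentSpace 𝓘(ℝ, ES d) x) :
    power n σ x v = top (n := n) (V := ES d) (σ x) e * e.det v :=
  (power_eq σ x v).trans (wedN_frame e (fun _ => σ x) v)

theorem zeros_iff (e : Module.Basis (Fin n × Bool) ℝ (ES d)) (σ : Form (ES d) X 2) (x : X) :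
    x ∈ Zeros n σ ↔ top (n := n) (V := ES d) (σ x) e = 0 := by
  constructor
  · intro h
    exact (power_eq σ x e).symm.trans (h e)
  · intro h v
    exact (power_frame e σ x v).trans (by rw [h, zero_mul])

variable {m : ℕ}

theorem rT_def (e : Module.Basis (Fin (m + 1) × Bool) ℝ (ES d)) (τ s : Form (ES d) X 2) (x : X) :
    rT e τ s x = top (n := m + 1) (V := ES d) (s x) e / top (n := m + 1) (V := ES d) (τ x) e := rfl

theorem good_of (e : Module.Basis (Fin (m + 1) × Bool) ℝ (ES d)) {τ σ : Form (ES d) X 2}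
    (hτ0 : ∀ x, top (n := m + 1) (V := ES d) (τ x) e ≠ 0) (hpos : Nonneg (m + 1) τ σ)
    (hthin : ThinlyDegenerate (m + 1) σ) : GoodN e τ σ := by
  have hD0 : Zeros (m + 1) σ = {x | rT e τ σ x = 0} := by
    ext x
    rw [zeros_iff e σ x]
    constructor
    · intro h
      exact (div_eq_zero_iff).2 (Or.inl h)
    · intro h
      exact ((div_eq_zero_iff).1 h).resolve_right (hτ0 x)
  refine ⟨fun x => ?_, fun z hz => ?_, fun z hz => ?_⟩
  · have h1 : 0 ≤ top (n := m + 1) (V := ES d) (σ x) e * top (n := m + 1) (V := ES d) (τ x) e := by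
      have h0 := hpos x e
      have e1 := power_eq (n := m + 1) σ x e
      have e2 := power_eq (n := m + 1) τ x e
      exact (congrArg₂ (· * ·) e1 e2) ▸ h0
    rw [rT_def]
    have h2 := hτ0 x
    rw [div_nonneg_iff]
    rcases lt_or_gt_of_ne h2 with h3 | h3
    · exact Or.inr ⟨by
        by_contra h4
        push Not at h4
        have := mul_neg_of_pos_of_neg h4 h3
        linarith, h3.le⟩
    · exact Or.inl ⟨by
        by_contra h4
        push Not at h4
        have := mul_neg_of_neg_of_pos h4 h3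
        linarith, h3.le⟩
  · rw [← hD0] at hz
    have h6 := (hthin z hz).1
    have h7 : ∃ v, power m σ z v ≠ 0 := by
      by_contra hc
      push Not at hc
      exact h6 hc
    obtain ⟨u, hu⟩ := h7
    exact ⟨u, fun h => hu ((power_eq σ z u).trans h)⟩
  · rw [← hD0] at hz ⊢
    exact (hthin z hz).2

theorem nondeg_of (e : Module.Basis (Fin (m + 1) × Bool) ℝ (ES d)) {τ σ : Form (ES d) X 2}
    (h : ∀ x, 0 < rT e τ σ x) : Nondeg σ := by
  intro x v hv
  by_contra hv0
  have h7 := top_degenerate (V := ES d) e (σ x) (v := v) hv0 hv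
  have h8 := h x
  rw [rT_def, h7, zero_div] at h8
  exact lt_irrefl _ h8

theorem nonneg_of (e : Module.Basis (Fin (m + 1) × Bool) ℝ (ES d)) {τ σ : Form (ES d) X 2}
    (hτ0 : ∀ x, top (n := m + 1) (V := ES d) (τ x) e ≠ 0)
    (h : ∀ x, 0 < rT e τ σ x) : Nonneg (m + 1) τ σ := by
  intro x v
  rw [power_frame e, power_frame e]
  have h1 := h x
  rw [rT_def] at h1
  have h8 := mul_pos h1 (pow_pos (abs_pos.2 (hτ0 x)) 2)
  rw [sq_abs, sq, ← mul_assoc, div_mul_cancel₀ _ (hτ0 x)] at h8
  have h9 := mul_nonneg h8.le (mul_self_nonneg (e.det v))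
  refine le_of_le_of_eq h9 ?_
  ring

end

section

open Pool.Agent.Q235.SP

variable {X : Type} [TopologicalSpace X] {n : ℕ} [ChartedSpace (ES (2 * n)) X]
  [IsManifold 𝓘(ℝ, ES (2 * n)) ∞ X]

/-- Every compact family `f` in `Thin n τ` has a continuous family `ρ` of exact forms such that
`f b + t ρ b` is nondegenerate, with the orientation of `τ`, for `0 < t ≤ 1`. -/
def Pushes (n : ℕ) (X : Type) [TopologicalSpace X] [ChartedSpace (ES (2 * n)) X]
    [IsManifold 𝓘(ℝ, ES (2 * n)) ∞ X] (τ : SForm (ES (2 * n)) X) : Prop :=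
  ∀ (B : Type) [TopologicalSpace B] [CompactSpace B] [T2Space B]
    (f : C(B, SForm (ES (2 * n)) X)), (∀ b, f b ∈ Thin n τ) →
    ∃ ρ : C(B, SForm (ES (2 * n)) X), (∀ b, Exact (ρ b).1) ∧ ∀ t : ℝ, 0 < t → t ≤ 1 → ∀ b,
      addS (f b) t (ρ b) ∈ NondegForms ∧ Nonneg n τ.1 (addS (f b) t (ρ b)).1

/-- If `τ` is joined in `Thin n τ` to the closed form `σ`, then there is an exact form `η` such that
for `0 < t ≤ 1` the form `σ + t η` is symplectic and homotopic to `τ` through nondegenerate
forms. -/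
def Criterion (n : ℕ) (X : Type) [TopologicalSpace X] [ChartedSpace (ES (2 * n)) X]
    [IsManifold 𝓘(ℝ, ES (2 * n)) ∞ X] (τ : SForm (ES (2 * n)) X) : Prop :=
  ∀ σ : SForm (ES (2 * n)) X, IsClosedForm σ.1 → JoinedIn (Thin n τ) τ σ →
    ∃ η : SForm (ES (2 * n)) X, Exact η.1 ∧ ∀ t : ℝ, 0 < t → t ≤ 1 →
      IsSymplectic (addS σ t η).1 ∧ JoinedIn NondegForms τ (addS σ t η)

theorem base [CompactSpace X] [T2Space X] (hn : 1 ≤ n) (τ : SForm (ES (2 * n)) X) (hτ : Zeros n τ.1 = ∅) {B : Type}
    [TopologicalSpace B] [CompactSpace B] [T2Space B] (f : C(B, SForm (ES (2 * n)) X))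
    (hf : ∀ b, f b ∈ Thin n τ) :
    ∃ ρ : C(B, SForm (ES (2 * n)) X), (∀ b, Pool.Agent.Q235.SZ.Ex (ρ b)) ∧
      ∀ t : ℝ, 0 < t → t ≤ 1 → ∀ b,
        addS (f b) t (ρ b) ∈ NondegForms ∧ Nonneg n τ.1 (addS (f b) t (ρ b)).1 := by
  obtain ⟨m, rfl⟩ : ∃ m, n = m + 1 := ⟨n - 1, by omega⟩
  let e : Module.Basis (Fin (m + 1) × Bool) ℝ (ES (2 * (m + 1))) :=
    (EuclideanSpace.basisFun (Fin (2 * (m + 1))) ℝ).toBasis.reindex
      (Fintype.equivOfCardEq (by simp [mul_comm]))
  have hτ0 : ∀ x, Pool.Agent.Q235.SN.top (n := m + 1) (V := ES (2 * (m + 1))) (τ.1 x) e ≠ 0 := by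
    intro x h
    have h1 : x ∈ Zeros (m + 1) τ.1 := (zeros_iff e τ.1 x).2 h
    rw [hτ] at h1
    exact h1
  obtain ⟨ρ, hρ, hEx, hpos⟩ := Pool.Agent.Q235.SP.push e hτ0 f.continuous
    (fun b => good_of e hτ0 (hf b).1 (hf b).2)
  exact ⟨⟨ρ, hρ⟩, hEx, fun t ht ht1 b =>
    ⟨nondeg_of e (hpos t ht ht1 b), nonneg_of e hτ0 (hpos t ht ht1 b)⟩⟩

theorem nondeg_tau (hn : 1 ≤ n) (τ : SForm (ES (2 * n)) X) (hτ : Zeros n τ.1 = ∅) :
    Nondeg τ.1 := by
  obtain ⟨m, rfl⟩ : ∃ m, n = m + 1 := ⟨n - 1, by omega⟩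
  let e : Module.Basis (Fin (m + 1) × Bool) ℝ (ES (2 * (m + 1))) :=
    (EuclideanSpace.basisFun (Fin (2 * (m + 1))) ℝ).toBasis.reindex
      (Fintype.equivOfCardEq (by simp [mul_comm]))
  intro x v hv
  by_contra hv0
  have h7 := Pool.Agent.Q235.SN.top_degenerate (V := ES (2 * (m + 1))) e (τ.1 x) (v := v) hv0 hv
  have h1 : x ∈ Zeros (m + 1) τ.1 := (zeros_iff e τ.1 x).2 h7
  rw [hτ] at h1
  exact h1

end

theorem result (n : ℕ) (hn : 1 ≤ n) (X : Type) [TopologicalSpace X]
    [ChartedSpace (ES (2 * n)) X] [IsManifold 𝓘(ℝ, ES (2 * n)) ∞ X] [CompactSpace X] [T2Space X]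
    (τ : SForm (ES (2 * n)) X) (hτ : Zeros n τ.1 = ∅) : Criterion n X τ ∧ Pushes n X τ := by
  refine ⟨fun σ hσ hpath => ?_, fun B _ _ _ f hf => ?_⟩
  · obtain ⟨γ, hγ⟩ := hpath
    obtain ⟨ρ, hEx, hpos⟩ := base hn τ hτ γ.toContinuousMap hγ
    have h0 : γ.toContinuousMap 0 = τ := γ.source
    have h1 : γ.toContinuousMap 1 = σ := γ.target
    refine ⟨ρ 1, (hEx 1).2, fun t ht ht1 => ⟨⟨(addS σ t (ρ 1)).2,
      Pool.Agent.Q235.SZ.closed_add t hσ (hEx 1).1, ?_⟩, ?_⟩⟩
    · have h2 := (hpos t ht ht1 1).1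
      rw [h1] at h2
      exact h2
    · have j1 : JoinedIn NondegForms τ (addS τ t (ρ 0)) := by
        refine JoinedIn.ofLine (f := fun s : ℝ => addS τ (s * t) (ρ 0)) ?_ ?_ ?_ ?_
        · exact (Pool.Agent.Q235.SZ.addS_continuous continuous_const
            (continuous_id.mul continuous_const) continuous_const).continuousOn
        · refine Subtype.ext (funext fun x => ?_)
          change τ.1 x + ((0 : ℝ) * t) • (ρ 0).1 x = τ.1 x
          have e1 : (0 * t : ℝ) = 0 := zero_mul t
          rw [e1]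
          have e2 : (0 : ℝ) • (ρ 0).1 x = 0 := zero_smul ℝ _
          rw [e2, add_zero]
        · rw [one_mul]
        · rintro _ ⟨s, ⟨hs0, hs1⟩, rfl⟩
          rcases eq_or_lt_of_le hs0 with hs | hs
          · subst hs
            have e0 : addS τ (0 * t) (ρ 0) = τ := by
              refine Subtype.ext (funext fun x => ?_)
              change τ.1 x + ((0 : ℝ) * t) • (ρ 0).1 x = τ.1 x
              have e1 : (0 * t : ℝ) = 0 := zero_mul t
              rw [e1]
              have e2 : (0 : ℝ) • (ρ 0).1 x = 0 := zero_smul ℝ _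
              rw [e2, add_zero]
            change addS τ (0 * t) (ρ 0) ∈ NondegForms
            rw [e0]
            exact nondeg_tau hn τ hτ
          · have h2 := (hpos (s * t) (mul_pos hs ht) (by nlinarith) 0).1
            rw [h0] at h2
            exact h2
      have j2 : JoinedIn NondegForms (addS τ t (ρ 0)) (addS σ t (ρ 1)) := by
        refine ⟨⟨⟨fun r => addS (γ r) t (ρ r), Pool.Agent.Q235.SZ.addS_continuous γ.continuous
          continuous_const ρ.continuous⟩, ?_, ?_⟩, fun r => (hpos t ht ht1 r).1⟩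
        · change addS (γ 0) t (ρ 0) = _
          rw [γ.source]
        · change addS (γ 1) t (ρ 1) = _
          rw [γ.target]
      exact j1.trans j2
  · obtain ⟨ρ, hEx, hpos⟩ := base hn τ hτ f hf
    exact ⟨ρ, fun b => (hEx b).2, hpos⟩

end Pool.Agent.Results.MP_bf98aa_gt.ThinHomotopy
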