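import Mathlib
import Pool.Agent.Q235.SR.FinalC

/-!
# Symplectic forms in a prescribed class, across sets of zero length

`X` is a manifold with a continuous almost complex structure `J`, `K` is a compact subset of `X`
with one-dimensional Hausdorff measure zero, and `J` is Hölder continuous near `K`.  Let `σ₀` be a
closed two-form on `X` and `β` a one-form on the complement of `K`, bounded near every point of `K`
(at the isolated points of `K`, it is enough that it is `o(dist⁻¹)`), such that `σ = σ₀ + dβ` tames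
`J` off `K`.  Then for every neighbourhood `U` of `K` there is a one-form `α` on `X` which is equal
to `β` outside `U` such that `σ₀ + dα` is symplectic, tames `J` and is equal to `σ` outside `U`; the
segment from any form taming `J` to `σ₀ + dα` consists of nondegenerate forms.
-/

set_option autoImplicit false

open Set MeasureTheory
open scoped Manifold ContDiff

noncomputable section

namespace Pool.Agent.Results.MP_bf98aa_gt.ZeroLengthInClass

open Pool.Agent.Y501.SYP Pool.Agent.Q235.SRP

/-- `K` is compact and its one-dimensional Hausdorff measure is zero (in every chart). -/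
def CompactZeroLength (d : ℕ) {X : Type} [TopologicalSpace X] [ChartedSpace (ES d) X]
    (K : Set X) : Prop :=
  IsCompact K ∧ ∀ x : X, μH[1] (chartAt (ES d) x '' (K ∩ (chartAt (ES d) x).source)) = 0

theorem result (d : ℕ) (X : Type) [TopologicalSpace X] [ChartedSpace (ES d) X]
    [IsManifold 𝓘(ℝ, ES d) ∞ X] [T2Space X] (J : End (ES d) X) (hJ : IsAlmostComplex J)
    (K : Set X) (hK : CompactZeroLength d K) (hol : ∀ x ∈ K, HolderNear J x)
    (σ₀ : Form (ES d) X 2) (hσ₀ : IsSmooth σ₀) (hσ₀c : IsClosedForm σ₀)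
    (β : Form (ES d) X 1) (σ : Form (ES d) X 2) (hσ : TamingInClassOff J σ₀ β σ K)
    (U : Set X) (hU : IsOpen U) (hKU : K ⊆ U) :
    ∃ (α : Form (ES d) X 1) (ρ : Form (ES d) X 2), IsSmooth α ∧ IsSmooth ρ ∧ IsD α ρ ∧
      IsTamingSymplectic (addF σ₀ ρ) J ∧ (∀ x, x ∉ U → α x = β x ∧ addF σ₀ ρ x = σ x) ∧
      ∀ τ : Form (ES d) X 2, (∀ x, TamesAt τ J x) →
        ∀ t : ℝ, 0 ≤ t → t ≤ 1 → NondegForm (segment τ (addF σ₀ ρ) t) :=
  fillC J hJ K hK.1 hK.2 hol σ₀ hσ₀ hσ₀c β σ hσ U hU hKU

end Pool.Agent.Results.MP_bf98aa_gt.ZeroLengthInClass
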